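import Pool.Agent.U515.MR.EllEx

/-!
# Morrey's problem for `W(F) = h(P F) + Q(F) + L(F)`, `P` an elliptic pair, on real `2 × 2` matrices

`P` is a pair of linear forms of the matrix whose common kernel contains no rank-one matrix, that is
`u ↦ P ∇u` is an elliptic system of first order; the models are the two real parts of `∂̄ u` and
(its reflection) the divergence and the rotation of `u`. `h` is an arbitrary function
of two variables, `Q` a quadratic form which on the kernel of `P` is a multiple of the determinant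
(for instance an arbitrary product sum `Σ cᵢⱼ ℓᵢ(F) Pⱼ(F)` plus a multiple of the determinant) and
`L` is linear. Every rank-one convex function of this form is quasiconvex. A polynomial of degree
six of this form is rank-one convex and not polyconvex.

Proof. After linear changes of the variables in the domain and the target, `p = P F` is the
anticonformal part of `F` and `Q(F) = 2 Σ cᵢⱼ kᵢ pⱼ` modulo the determinant and functions of `p`,
with `k` the conformal part. Rank-one matrices are the matrices with `|k| = |p|`, and the direction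
of `k` is free. The energy decreases along the heat flow: after integration by parts with constant
two-forms `-c₁ⱼ dk₀ ∧ dpⱼ + c₀ⱼ dk₁ ∧ dpⱼ` the dissipation is the integral of a quadratic form in
`∇p` alone, whose value at `∇p = α ⊗ n` is `D²W[H, H]` with a rank-one matrix `H` of anticonformal
part `|n| α`, so it is nonnegative at matrices `∇p` of rank one. By the S-lemma it becomes
nonnegative after adding `l(p) det ∇p`, and `l(p) dp₀ ∧ dp₁` has integral zero.
-/

set_option autoImplicit false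

open Matrix

namespace Pool.Agent.Results.MP_515557_an.EllipticPairPlusQuadratic

/-- Convexity on the segments in rank-one directions. -/
def RankOneConvex (W : Matrix (Fin 2) (Fin 2) ℝ → ℝ) : Prop :=
  ∀ F H : Matrix (Fin 2) (Fin 2) ℝ, H.rank = 1 → ∀ t : ℝ, 0 ≤ t → t ≤ 1 →
    W ((1 - t) • F + t • (F + H)) ≤ (1 - t) * W F + t * W (F + H)

/-- The inequality of quasiconvexity at all matrices, for all bounded open sets `Ω` and all
Lipschitz maps `ϑ` vanishing off `Ω`. -/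
def Quasiconvex (W : Matrix (Fin 2) (Fin 2) ℝ → ℝ) : Prop :=
  ∀ F₀ : Matrix (Fin 2) (Fin 2) ℝ, ∀ Ω : Set (Fin 2 → ℝ),
    IsOpen Ω → Bornology.IsBounded Ω →
    ∀ ϑ : (Fin 2 → ℝ) → (Fin 2 → ℝ), (∃ K, LipschitzWith K ϑ) →
      (∀ x, x ∉ Ω → ϑ x = 0) →
      W F₀ * (MeasureTheory.volume Ω).toReal ≤
        ∫ x in Ω, W (F₀ + LinearMap.toMatrix'
          ((fderiv ℝ ϑ x : (Fin 2 → ℝ) →L[ℝ] (Fin 2 → ℝ)) :
            (Fin 2 → ℝ) →ₗ[ℝ] (Fin 2 → ℝ)))

/-- `W(F) = P(F, det F)` for a convex function `P` with values in `ℝ ∪ {+∞}`. -/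
def Polyconvex (W : Matrix (Fin 2) (Fin 2) ℝ → ℝ) : Prop :=
  ∃ P : Matrix (Fin 2) (Fin 2) ℝ × ℝ → EReal, (∀ z, P z ≠ ⊥) ∧
    (∀ z w : Matrix (Fin 2) (Fin 2) ℝ × ℝ, ∀ a b : ℝ, 0 ≤ a → 0 ≤ b → a + b = 1 →
      P (a • z + b • w) ≤ (a : EReal) * P z + (b : EReal) * P w) ∧
    ∀ F, P (F, F.det) = (W F : EReal)

/-- Let `P` be a pair of linear forms without a rank-one matrix in its kernel, `h` any function of
two variables, `Q` a quadratic form which is a multiple of the determinant on the kernel of `P` and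
`L` linear. If `h(P F) + Q(F) + L(F)` is rank-one convex, then it is quasiconvex; and the polynomial
`2(F₀₀² - F₁₁²) + (5u² + v²)/2 - u⁴ + 6u²v² + 7v⁴ + 5u⁶`, `u = F₀₀ - F₁₁`, `v = F₁₀ + F₀₁`, of this
form is rank-one convex, quasiconvex and not polyconvex. -/
theorem result :
    (∀ (P : Matrix (Fin 2) (Fin 2) ℝ →ₗ[ℝ] (Fin 2 → ℝ)) (h : (Fin 2 → ℝ) → ℝ)
      (Q : QuadraticForm ℝ (Matrix (Fin 2) (Fin 2) ℝ)) (L : Matrix (Fin 2) (Fin 2) ℝ →ₗ[ℝ] ℝ)
      (c : ℝ), (∀ K, P K = 0 → K.rank ≠ 1) → (∀ K, P K = 0 → Q K = c * K.det) →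
      RankOneConvex (fun F => h (P F) + Q F + L F) →
        Quasiconvex (fun F => h (P F) + Q F + L F)) ∧
    ∀ W : Matrix (Fin 2) (Fin 2) ℝ → ℝ,
      (∀ F, W F = 2 * (F 0 0 ^ 2 - F 1 1 ^ 2)
        + (5 * (F 0 0 - F 1 1) ^ 2 + (F 1 0 + F 0 1) ^ 2) / 2 - (F 0 0 - F 1 1) ^ 4
        + 6 * (F 0 0 - F 1 1) ^ 2 * (F 1 0 + F 0 1) ^ 2 + 7 * (F 1 0 + F 0 1) ^ 4
        + 5 * (F 0 0 - F 1 1) ^ 6) →
      RankOneConvex W ∧ Quasiconvex W ∧ ¬ Polyconvex W := by
  have main : ∀ (P : Matrix (Fin 2) (Fin 2) ℝ →ₗ[ℝ] (Fin 2 → ℝ)) (h : (Fin 2 → ℝ) → ℝ)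
      (Q : QuadraticForm ℝ (Matrix (Fin 2) (Fin 2) ℝ)) (L : Matrix (Fin 2) (Fin 2) ℝ →ₗ[ℝ] ℝ)
      (c : ℝ), (∀ K, P K = 0 → K.rank ≠ 1) → (∀ K, P K = 0 → Q K = c * K.det) →
      RankOneConvex (fun F => h (P F) + Q F + L F) →
        Quasiconvex (fun F => h (P F) + Q F + L F) := by
    intro P h Q L c hP hQ hroc
    refine Pool.Agent.U515.MR.fin_ell P (fun K hK hd => ?_) h Q L c hQ hroc
    by_contra hK0
    exact hP K hK (Pool.Agent.Helper188.Morrey.rank_eq_one_of_det hK0 hd)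
  refine ⟨main, fun W hW => ?_⟩
  have hWX : W = Pool.Agent.U515.MR.WX := by
    funext F
    rw [hW, Pool.Agent.U515.MR.WX, Pool.Agent.U515.MR.hX]
    ring
  have hroc : RankOneConvex W := by
    intro F H hH t ht0 ht1
    rw [hWX]
    exact Pool.Agent.U515.MR.WX_roc F H
      (Pool.Agent.Helper188.Morrey.det_eq_zero_of_rank hH.le) t ht0 ht1
  refine ⟨hroc, ?_, ?_⟩
  · set P : Matrix (Fin 2) (Fin 2) ℝ →ₗ[ℝ] (Fin 2 → ℝ) :=
      LinearMap.pi ![Matrix.entryLinearMap ℝ ℝ 0 0 - Matrix.entryLinearMap ℝ ℝ 1 1,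
        Matrix.entryLinearMap ℝ ℝ 1 0 + Matrix.entryLinearMap ℝ ℝ 0 1] with hP
    set Q : QuadraticForm ℝ (Matrix (Fin 2) (Fin 2) ℝ) :=
      (2 : ℝ) • (QuadraticMap.linMulLin (Matrix.entryLinearMap ℝ ℝ (0 : Fin 2) (0 : Fin 2))
        (Matrix.entryLinearMap ℝ ℝ 0 0) - QuadraticMap.linMulLin (Matrix.entryLinearMap ℝ ℝ 1 1)
        (Matrix.entryLinearMap ℝ ℝ 1 1)) with hQ
    have hP0 : ∀ F, P F 0 = F 0 0 - F 1 1 := fun F => by simp [hP]
    have hP1 : ∀ F, P F 1 = F 1 0 + F 0 1 := fun F => by simp [hP]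
    have hQa : ∀ F, Q F = 2 * (F 0 0 * F 0 0 - F 1 1 * F 1 1) := fun F => by
      simp [hQ, QuadraticMap.linMulLin_apply]
    have e : W = fun F => (fun v : Fin 2 → ℝ => Pool.Agent.U515.MR.hX (v 0) (v 1)) (P F) + Q F
        + (0 : Matrix (Fin 2) (Fin 2) ℝ →ₗ[ℝ] ℝ) F := by
      funext F
      simp only [hW, hP0, hP1, hQa, Pool.Agent.U515.MR.hX, LinearMap.zero_apply]
      ring
    rw [e] at hroc ⊢
    refine main P (fun v => Pool.Agent.U515.MR.hX (v 0) (v 1)) Q 0 0 (fun K hK hr => ?_)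
      (fun K hK => ?_) hroc
    · have h0 : K 0 0 - K 1 1 = 0 := by rw [← hP0, hK]; rfl
      have h1 : K 1 0 + K 0 1 = 0 := by rw [← hP1, hK]; rfl
      have hd := Pool.Agent.Helper188.Morrey.det_eq_zero_of_rank hr.le
      rw [Matrix.det_fin_two] at hd
      have a1 : K 1 1 = K 0 0 := by linarith
      have a2 : K 0 1 = -K 1 0 := by linarith
      rw [a1, a2] at hd
      have b1 : K 0 0 = 0 := by nlinarith [sq_nonneg (K 0 0), sq_nonneg (K 1 0)]
      have b2 : K 1 0 = 0 := by nlinarith [sq_nonneg (K 0 0), sq_nonneg (K 1 0)]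
      have hK0 : K = 0 := by
        ext i j
        fin_cases i <;> fin_cases j <;> simp [a1, a2, b1, b2]
      rw [hK0, Matrix.rank_zero] at hr
      exact zero_ne_one hr
    · have h0 : K 0 0 - K 1 1 = 0 := by rw [← hP0, hK]; rfl
      rw [hQa, show K 0 0 = K 1 1 by linarith]
      ring
  · rintro ⟨P, -, h2, h3⟩
    rw [hWX] at h3
    exact Pool.Agent.U515.MR.WX_not_poly P h2 h3

end Pool.Agent.Results.MP_515557_an.EllipticPairPlusQuadratic
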