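import Pool.Agent.U515.MR.RowFin

/-!
# Morrey's problem for `W(F) = h(βᵀ F) + Q(F) + L(F)` on real `2 × 2` matrices

`β` is a vector, `h` an arbitrary function of the row vector `βᵀ F` (for instance of the first row
of `F`, that is, of the gradient of the first component), `Q` an arbitrary quadratic form and `L` an
arbitrary linear form of the matrix. Every rank-one convex function of this form is quasiconvex, and
there are rank-one convex functions of this form which are not polyconvex.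

(The starting result `OneColumnPlusQuadratic` treats functions of `F β`. The two classes are
exchanged by the transposition of the matrices, but to our knowledge it is not known whether the
transposition preserves quasiconvexity of functions of `2 × 2` matrices (it does not for larger
matrices), and the proofs are different.)

Proof. After linear changes of the variables in the domain and the target (and an approximation)
`W(F) = h(p) + |q|² + 2 q · C p` for `F = (p, q)`, up to a linear function. The energy of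
`u = (v, w)` decreases along the heat flow `∂ₜ u = Δ u`: up to exact two-forms with constant
coefficients its dissipation is the integral of
`D²h(∇v)[∂₀∇v, ∂₀∇v] + D²h(∇v)[∂₁∇v, ∂₁∇v] - 2 (tr C D²v)² + 2 (Δw + tr C D²v)²`.
For a symmetric matrix `M = D²v` with determinant zero, `M = ± n ⊗ n`, rank-one convexity in the
direction `a ⊗ n` with the best `a` says exactly that
`D²h[M e₀, M e₀] + D²h[M e₁, M e₁] ≥ 2 (tr C M)²`. So by the S-lemma there is a function `l` with
`D²h(p)[M e₀, M e₀] + D²h(p)[M e₁, M e₁] - 2 (tr C M)² + l(p) det M ≥ 0` for all symmetric `M`, and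
the two-form `l(∇v) d(∂₀v) ∧ d(∂₁v)` has integral zero.
-/

set_option autoImplicit false

open Matrix

namespace Pool.Agent.Results.MP_515557_an.OneRowPlusQuadratic

/-- Convexity on the segments in rank-one directions. -/
def RankOneConvex (W : Matrix (Fin 2) (Fin 2) ℝ → ℝ) : Prop :=
  ∀ F H : Matrix (Fin 2) (Fin 2) ℝ, H.rank = 1 → ∀ t : ℝ, 0 ≤ t → t ≤ 1 →
    W ((1 - t) • F + t • (F + H)) ≤ (1 - t) * W F + t * W (F + H)

/-- The inequality of quasiconvexity at all matrices, for all bounded open sets `Ω` and all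
Lipschitz maps `ϑ` vanishing off `Ω`. -/
def Quasiconvex (W : Matrix (Fin 2) (Fin 2) ℝ → ℝ) : Prop :=
  ∀ F₀ : Matrix (Fin 2) (Fin 2) ℝ, ∀ Ω : Set (Fin 2 → ℝ),
    IsOpen Ω → Bornology.IsBounded Ω →
    ∀ ϑ : (Fin 2 → ℝ) → (Fin 2 → ℝ), (∃ K, LipschitzWith K ϑ) →
      (∀ x, x ∉ Ω → ϑ x = 0) →
      W F₀ * (MeasureTheory.volume Ω).toReal ≤
        ∫ x in Ω, W (F₀ + LinearMap.toMatrix'
          ((fderiv ℝ ϑ x : (Fin 2 → ℝ) →L[ℝ] (Fin 2 → ℝ)) :
            (Fin 2 → ℝ) →ₗ[ℝ] (Fin 2 → ℝ)))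

/-- `W(F) = P(F, det F)` for a convex function `P` with values in `ℝ ∪ {+∞}`. -/
def Polyconvex (W : Matrix (Fin 2) (Fin 2) ℝ → ℝ) : Prop :=
  ∃ P : Matrix (Fin 2) (Fin 2) ℝ × ℝ → EReal, (∀ z, P z ≠ ⊥) ∧
    (∀ z w : Matrix (Fin 2) (Fin 2) ℝ × ℝ, ∀ a b : ℝ, 0 ≤ a → 0 ≤ b → a + b = 1 →
      P (a • z + b • w) ≤ (a : EReal) * P z + (b : EReal) * P w) ∧
    ∀ F, P (F, F.det) = (W F : EReal)

/-- the transposed quadratic form of the example -/
noncomputable def QT : QuadraticForm ℝ (Matrix (Fin 2) (Fin 2) ℝ) :=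
  N555.MQ.QE.comp (Matrix.transposeLinearEquiv (Fin 2) (Fin 2) ℝ ℝ).toLinearMap

theorem QT_eq (F : Matrix (Fin 2) (Fin 2) ℝ) :
    (fun v : Fin 2 → ℝ => N555.MQ.kk (v 0) (v 1)) (![1, 0] ᵥ* F) + QT F = N555.MQ.WE Fᵀ := by
  rw [← N555.MQ.WE_eq, Matrix.mulVec_transpose]
  rfl

/-- Every rank-one convex function `W(F) = h(βᵀ F) + Q(F) + L(F)` of a real `2 × 2` matrix, with an
arbitrary function `h`, a quadratic form `Q` and a linear form `L`, is quasiconvex; some rank-one
convex functions `h(e₀ᵀ F) + Q(F)` are not polyconvex. -/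
theorem result :
    (∀ (β : Fin 2 → ℝ) (h : (Fin 2 → ℝ) → ℝ)
      (Q : QuadraticForm ℝ (Matrix (Fin 2) (Fin 2) ℝ)) (L : Matrix (Fin 2) (Fin 2) ℝ →ₗ[ℝ] ℝ),
      RankOneConvex (fun F => h (β ᵥ* F) + Q F + L F) →
        Quasiconvex (fun F => h (β ᵥ* F) + Q F + L F)) ∧
    ∃ (h : (Fin 2 → ℝ) → ℝ) (Q : QuadraticForm ℝ (Matrix (Fin 2) (Fin 2) ℝ)),
      RankOneConvex (fun F => h (![1, 0] ᵥ* F) + Q F) ∧
        ¬ Polyconvex (fun F => h (![1, 0] ᵥ* F) + Q F) := by
  have e : (fun F : Matrix (Fin 2) (Fin 2) ℝ =>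
      (fun v : Fin 2 → ℝ => N555.MQ.kk (v 0) (v 1)) (![1, 0] ᵥ* F) + QT F)
      = fun F => N555.MQ.WE Fᵀ := funext QT_eq
  refine ⟨fun β h Q L hroc => Pool.Agent.U515.MR.fin_row β h Q L hroc,
    fun v => N555.MQ.kk (v 0) (v 1), QT, ?_, ?_⟩
  · rw [e]
    intro F H hH t ht0 ht1
    have hd : (Hᵀ).det = 0 := by
      rw [Matrix.det_transpose]
      exact Pool.Agent.Helper188.Morrey.det_eq_zero_of_rank hH.le
    have h1 := N555.MQ.WE_roc Fᵀ Hᵀ hd t ht0 ht1
    show N555.MQ.WE ((1 - t) • F + t • (F + H))ᵀ ≤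
      (1 - t) * N555.MQ.WE Fᵀ + t * N555.MQ.WE (F + H)ᵀ
    simp only [Matrix.transpose_add, Matrix.transpose_smul]
    exact h1
  · rw [e]
    rintro ⟨P, h1, h2, h3⟩
    refine N555.MQ.WE_not_poly ⟨fun z => P (z.1ᵀ, z.2), fun z => h1 _, fun z w a b ha hb hab => ?_,
      fun F => ?_⟩
    · have h4 := h2 (z.1ᵀ, z.2) (w.1ᵀ, w.2) a b ha hb hab
      have e1 : a • ((z.1ᵀ, z.2) : Matrix (Fin 2) (Fin 2) ℝ × ℝ) + b • (w.1ᵀ, w.2)
          = (((a • z + b • w).1)ᵀ, (a • z + b • w).2) := by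
        ext i j
        · simp
        · simp
      rw [e1] at h4
      exact h4
    · have h4 := h3 Fᵀ
      simp only [Matrix.det_transpose, Matrix.transpose_transpose] at h4
      exact h4

end Pool.Agent.Results.MP_515557_an.OneRowPlusQuadratic
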