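import Pool.Agent.N797.MR.MatT

/-!
# Morrey's problem on the matrices with positive determinant, invariance under rotations from one side

Let `W` be a real-valued function of a real `2 × 2` matrix with positive determinant which is
invariant under rotations from one side only (from the left: frame-indifference, no isotropy is
assumed; or from the right), and positively homogeneous of degree zero (an isochoric energy, a
function of `Aᵀ A / det A`) or of degree two.  Then `W` is rank-one convex if and only if it is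
polyconvex, that is, `W A = P (A, det A)` with a finite convex function `P` on the half space of the
pairs with positive second component; and rank-one convexity implies quasiconvexity: the Morrey
inequality holds for all Lipschitz maps `ϑ` vanishing off a bounded open set with
`det (F₀ + Dϑ) > 0` almost everywhere for which the positive part of the energy is finite.
-/

set_option autoImplicit false

namespace Pool.Agent.Results.MP_515557_an.OneSidedPositiveDeterminant

open MeasureTheory

/-- the matrix `F₀ + Dϑ(x)` -/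
noncomputable def Grad (F₀ : Matrix (Fin 2) (Fin 2) ℝ) (ϑ : (Fin 2 → ℝ) → (Fin 2 → ℝ))
    (x : Fin 2 → ℝ) : Matrix (Fin 2) (Fin 2) ℝ :=
  F₀ + LinearMap.toMatrix'
    ((fderiv ℝ ϑ x : (Fin 2 → ℝ) →L[ℝ] (Fin 2 → ℝ)) : (Fin 2 → ℝ) →ₗ[ℝ] (Fin 2 → ℝ))

/-- convexity along the segments in rank-one directions between matrices with positive
determinant -/
def RankOneConvexPos (W : Matrix (Fin 2) (Fin 2) ℝ → ℝ) : Prop :=
  ∀ F H : Matrix (Fin 2) (Fin 2) ℝ, H.rank = 1 → 0 < F.det → 0 < (F + H).det →
    ∀ t : ℝ, 0 ≤ t → t ≤ 1 → W ((1 - t) • F + t • (F + H)) ≤ (1 - t) * W F + t * W (F + H)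

/-- the value at a matrix with positive determinant is a finite convex function of the matrix and
its determinant -/
def PolyconvexPos (W : Matrix (Fin 2) (Fin 2) ℝ → ℝ) : Prop :=
  ∃ P : Matrix (Fin 2) (Fin 2) ℝ × ℝ → ℝ, ConvexOn ℝ {X | 0 < X.2} P ∧
    ∀ A, 0 < A.det → W A = P (A, A.det)

/-- the Morrey inequality at matrices `F₀` with positive determinant, for Lipschitz maps `ϑ`
vanishing off a bounded open set `Ω` such that `det (F₀ + Dϑ) > 0` almost everywhere on `Ω` and the
positive part of `W(F₀ + Dϑ)` is integrable on `Ω` -/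
def QuasiconvexPos (W : Matrix (Fin 2) (Fin 2) ℝ → ℝ) : Prop :=
  ∀ F₀ : Matrix (Fin 2) (Fin 2) ℝ, 0 < F₀.det → ∀ Ω : Set (Fin 2 → ℝ),
    IsOpen Ω → Bornology.IsBounded Ω →
    ∀ ϑ : (Fin 2 → ℝ) → (Fin 2 → ℝ), (∃ K, LipschitzWith K ϑ) → (∀ x, x ∉ Ω → ϑ x = 0) →
      (∀ᵐ x ∂(volume.restrict Ω), 0 < (Grad F₀ ϑ x).det) →
      ∫⁻ x in Ω, ENNReal.ofReal (W (Grad F₀ ϑ x)) ≠ ⊤ →
      IntegrableOn (fun x => W (Grad F₀ ϑ x)) Ω ∧
        W F₀ * (volume Ω).toReal ≤ ∫ x in Ω, W (Grad F₀ ϑ x)

/-- the determinant is affine on segments in rank-one directions -/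
theorem det_segment {F H : Matrix (Fin 2) (Fin 2) ℝ} (hH : H.rank = 1) (t : ℝ) :
    ((1 - t) • F + t • (F + H)).det = (1 - t) * F.det + t * (F + H).det := by
  have h0 : H.det = 0 := by
    by_contra h
    have h1 : IsUnit H.det := isUnit_iff_ne_zero.2 h
    have h2 := Matrix.rank_of_isUnit H ((Matrix.isUnit_iff_isUnit_det H).2 h1)
    rw [hH] at h2
    simp at h2
  rw [Matrix.det_fin_two] at h0
  simp only [Matrix.det_fin_two, Matrix.add_apply, Matrix.smul_apply, smul_eq_mul]
  linear_combination (t ^ 2 - t) * h0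

theorem rankOne_of_poly {W : Matrix (Fin 2) (Fin 2) ℝ → ℝ} (h : PolyconvexPos W) :
    RankOneConvexPos W := by
  obtain ⟨P, hP, hW⟩ := h
  intro F H hH hF hFH t h0 h1
  have hd := det_segment (F := F) hH t
  have hpos : 0 < ((1 - t) • F + t • (F + H)).det := by
    rw [hd]
    rcases h0.eq_or_lt with rfl | h0'
    · simpa using hF
    · have h3 : 0 ≤ (1 - t) * F.det := mul_nonneg (by linarith) hF.le
      have h4 : 0 < t * (F + H).det := mul_pos h0' hFH
      linarith
  have h2 := hP.2
    (show ((F, F.det) : Matrix (Fin 2) (Fin 2) ℝ × ℝ) ∈ {X | 0 < X.2} from hF)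
    (show ((F + H, (F + H).det) : Matrix (Fin 2) (Fin 2) ℝ × ℝ) ∈ {X | 0 < X.2} from hFH)
    (show 0 ≤ 1 - t by linarith) h0 (by ring)
  rw [hW _ hpos, hW F hF, hW _ hFH, hd]
  exact h2

/-- Let `p` be `0` or `2` and let `W` be a real-valued function of a real `2 × 2` matrix with
`W (R A) = W A` for all rotations `R` (or with `W (A R) = W A` for all rotations `R`) and
`W (c A) = c ^ p W A` for all `c > 0`, for all `A` with positive determinant.  Then `W` is rank-one
convex on the matrices with positive determinant if and only if it is polyconvex there, and then it is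
quasiconvex there. -/
theorem result (p : ℕ) (hp : p = 0 ∨ p = 2) (W : Matrix (Fin 2) (Fin 2) ℝ → ℝ)
    (hinv : (∀ R ∈ Matrix.specialOrthogonalGroup (Fin 2) ℝ, ∀ A, 0 < A.det → W (R * A) = W A) ∨
      (∀ R ∈ Matrix.specialOrthogonalGroup (Fin 2) ℝ, ∀ A, 0 < A.det → W (A * R) = W A))
    (hhom : ∀ c : ℝ, 0 < c → ∀ A, 0 < A.det → W (c • A) = c ^ p * W A) :
    (RankOneConvexPos W ↔ PolyconvexPos W) ∧ (RankOneConvexPos W → QuasiconvexPos W) := by
  have h1 : RankOneConvexPos W → PolyconvexPos W := fun h =>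
    Pool.Agent.N797.MR.pos_main hp hinv hhom h
  refine ⟨⟨h1, rankOne_of_poly⟩, fun h => ?_⟩
  obtain ⟨P, hP, hW⟩ := h1 h
  intro F₀ hF Ω hΩ hb ϑ hϑ hz hpos hfin
  exact Pool.Agent.N797.MR.pos_quas' hP hW hF hΩ hb hϑ hz hpos hfin

end Pool.Agent.Results.MP_515557_an.OneSidedPositiveDeterminant
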