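import Pool.Agent.U124.VI.Mat

/-!
# Morrey's problem for the planar volumetric-isochoric split, with bounded distortion

Let `1 < κ ≤ ∞` and `0 ≤ α < β ≤ ∞`, and let `G` be the set of the real `2 × 2` matrices `F` with
`α < det F < β` and linear distortion `K(F) < κ` (`K = s / v` is the quotient of the singular values
`s ≥ v > 0`).  Let `W` be an energy on `G` with an additive volumetric-isochoric split,
`W(F) = h(K(F)) + f(det F)` with ARBITRARY real functions `h` and `f`.  If `W` is rank-one convex on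
`G`, then `W` is quasiconvex on `G`: the Morrey inequality holds at every matrix of `G` and for every
Lipschitz test map whose gradients lie in `G` almost everywhere and for which the positive part of the
energy is integrable.  For `κ = β = ∞` and `α = 0` these are the energies which are finite on all of
`GL⁺(2)`; the other cases are energies with the value `+∞` off `G`, for example materials whose
distortion or volume change cannot exceed given bounds.

The split can be recognised intrinsically: the same holds for every isotropic `W` on `G` for which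
the change `W(cF) - W(F)` under a scaling depends only on `c` and on `det F`.
-/

set_option autoImplicit false

namespace Pool.Agent.Results.MP_515557_an.VolumetricIsochoricSplit

open MeasureTheory

/-- the matrix `F₀ + Dϑ(x)` -/
noncomputable def Grad (F₀ : Matrix (Fin 2) (Fin 2) ℝ) (ϑ : (Fin 2 → ℝ) → (Fin 2 → ℝ))
    (x : Fin 2 → ℝ) : Matrix (Fin 2) (Fin 2) ℝ :=
  F₀ + LinearMap.toMatrix'
    ((fderiv ℝ ϑ x : (Fin 2 → ℝ) →L[ℝ] (Fin 2 → ℝ)) : (Fin 2 → ℝ) →ₗ[ℝ] (Fin 2 → ℝ))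

open scoped Matrix.Norms.L2Operator in
/-- the linear distortion `‖F‖ ² / det F`, where `‖F‖` is the operator norm of `F` on the Euclidean
plane: the quotient `s / v` of the singular values `s ≥ v > 0` of `F`, if `det F > 0` -/
noncomputable def distortion (F : Matrix (Fin 2) (Fin 2) ℝ) : ℝ := ‖F‖ ^ 2 / F.det

/-- the matrices with distortion `< κ` and determinant between `α` and `β` -/
def Dom (κ α β : EReal) (F : Matrix (Fin 2) (Fin 2) ℝ) : Prop :=
  (distortion F : EReal) < κ ∧ α < (F.det : EReal) ∧ (F.det : EReal) < β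

/-- convexity along the segments in rank-one directions between matrices of `G` -/
def RankOneConvexOn (G : Matrix (Fin 2) (Fin 2) ℝ → Prop) (W : Matrix (Fin 2) (Fin 2) ℝ → ℝ) :
    Prop :=
  ∀ F H : Matrix (Fin 2) (Fin 2) ℝ, H.rank = 1 → G F → G (F + H) →
    ∀ t : ℝ, 0 ≤ t → t ≤ 1 → W ((1 - t) • F + t • (F + H)) ≤ (1 - t) * W F + t * W (F + H)

/-- the Morrey inequality at the matrices `F₀` of `G`, for Lipschitz maps `ϑ` vanishing off a bounded
open set `Ω` such that `F₀ + Dϑ` is in `G` almost everywhere on `Ω` and the positive part of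
`W(F₀ + Dϑ)` is integrable on `Ω` -/
def QuasiconvexOn (G : Matrix (Fin 2) (Fin 2) ℝ → Prop) (W : Matrix (Fin 2) (Fin 2) ℝ → ℝ) : Prop :=
  ∀ F₀ : Matrix (Fin 2) (Fin 2) ℝ, G F₀ → ∀ Ω : Set (Fin 2 → ℝ),
    IsOpen Ω → Bornology.IsBounded Ω →
    ∀ ϑ : (Fin 2 → ℝ) → (Fin 2 → ℝ), (∃ K, LipschitzWith K ϑ) → (∀ x, x ∉ Ω → ϑ x = 0) →
      (∀ᵐ x ∂(volume.restrict Ω), G (Grad F₀ ϑ x)) →
      ∫⁻ x in Ω, ENNReal.ofReal (W (Grad F₀ ϑ x)) ≠ ⊤ →
      IntegrableOn (fun x => W (Grad F₀ ϑ x)) Ω ∧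
        W F₀ * (volume Ω).toReal ≤ ∫ x in Ω, W (Grad F₀ ϑ x)

/-- invariance under left and right rotations, on `G` -/
def IsotropicOn (G : Matrix (Fin 2) (Fin 2) ℝ → Prop) (W : Matrix (Fin 2) (Fin 2) ℝ → ℝ) : Prop :=
  ∀ R ∈ Matrix.specialOrthogonalGroup (Fin 2) ℝ, ∀ Q ∈ Matrix.specialOrthogonalGroup (Fin 2) ℝ,
    ∀ F : Matrix (Fin 2) (Fin 2) ℝ, G F → W (R * F * Q) = W F

/-- on `G` the difference `W(cF) - W(F)` depends only on `c > 0` and on `det F` -/
def ScalesByVolume (G : Matrix (Fin 2) (Fin 2) ℝ → Prop) (W : Matrix (Fin 2) (Fin 2) ℝ → ℝ) :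
    Prop :=
  ∀ c : ℝ, 0 < c → ∀ F F' : Matrix (Fin 2) (Fin 2) ℝ, F.det = F'.det → G F → G F' →
    G (c • F) → G (c • F') → W (c • F) - W F = W (c • F') - W F'

/-- Let `1 < κ ≤ ∞` and `0 ≤ α < β ≤ ∞`, let `G` be the set of the real `2 × 2` matrices with
distortion `< κ` and determinant in `(α, β)`, and let `W` be a real function which is rank-one convex
on `G`.
(1) If `W(F) = h(K(F)) + f(det F)` for all `F` in `G`, `K` the linear distortion and `h, f`
arbitrary real functions, then `W` is quasiconvex on `G`.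
(2) The same holds if `W` is invariant under left and right rotations on `G` and `W(cF) - W(F)`
depends only on `c` and `det F`. -/
theorem result (κ α β : EReal) (hκ : 1 < κ) (hα : 0 ≤ α) (hαβ : α < β)
    (W : Matrix (Fin 2) (Fin 2) ℝ → ℝ) (hR : RankOneConvexOn (Dom κ α β) W) :
    (∀ h f : ℝ → ℝ, (∀ F : Matrix (Fin 2) (Fin 2) ℝ, Dom κ α β F →
      W F = h (distortion F) + f F.det) → QuasiconvexOn (Dom κ α β) W) ∧
    (IsotropicOn (Dom κ α β) W → ScalesByVolume (Dom κ α β) W →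
      QuasiconvexOn (Dom κ α β) W) := by
  have hI := Pool.Agent.U124.VI.ik_of hκ
  have hJ := Pool.Agent.U124.VI.oj_of hα hαβ
  have hdom : ∀ A : Matrix (Fin 2) (Fin 2) ℝ,
      Pool.Agent.U124.VI.Mdom (Pool.Agent.U124.VI.Ik κ) (Pool.Agent.U124.VI.Jk α β) A ↔
        Dom κ α β A := fun A => Pool.Agent.U124.VI.mdom_iff hα
  have key : ∀ h f : ℝ → ℝ, (∀ F : Matrix (Fin 2) (Fin 2) ℝ, Dom κ α β F →
      W F = h (distortion F) + f F.det) → QuasiconvexOn (Dom κ α β) W := by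
    intro h f hW F₀ h0 Ω hΩ hb ϑ hϑ hz hpos hfin
    have hW' : ∀ A, Pool.Agent.U124.VI.Mdom (Pool.Agent.U124.VI.Ik κ)
        (Pool.Agent.U124.VI.Jk α β) A →
        W A = Pool.Agent.R222.VI.wv h f (Pool.Agent.W360.MQ.cab A) := by
      intro A hA
      obtain ⟨e1, e2⟩ := Pool.Agent.U124.VI.inv_cab A hA.1
      rw [hW A ((hdom A).1 hA)]
      unfold Pool.Agent.R222.VI.wv
      rw [e1, e2]
      rfl
    have hRc := Pool.Agent.U124.VI.RC_of hI hJ hW' fun F H hH hF hFH =>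
      hR F H hH ((hdom F).1 hF) ((hdom _).1 hFH)
    have hev : (fun x => W (Grad F₀ ϑ x)) =ᵐ[volume.restrict Ω]
        fun x => Pool.Agent.R222.VI.wv h f (Pool.Agent.W523.MQ.OM.T F₀ (fderiv ℝ ϑ x)) := by
      filter_upwards [hpos] with x hx
      exact hW' _ ((hdom _).2 hx)
    have hpos' : ∀ᵐ x ∂(volume.restrict Ω), Pool.Agent.U124.VI.Gd (Pool.Agent.U124.VI.Ik κ)
        (Pool.Agent.U124.VI.Jk α β) (Pool.Agent.W523.MQ.OM.T F₀ (fderiv ℝ ϑ x)) := by
      filter_upwards [hpos] with x hx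
      exact Pool.Agent.U124.VI.gd_cab.1 ((hdom _).2 hx)
    have hfin' : ∫⁻ x in Ω, ENNReal.ofReal (Pool.Agent.R222.VI.wv h f
        (Pool.Agent.W523.MQ.OM.T F₀ (fderiv ℝ ϑ x))) ≠ ⊤ := by
      have e := lintegral_congr_ae (hev.fun_comp ENNReal.ofReal)
      simp only [Function.comp] at e
      rw [← e]
      exact hfin
    have h0' := (hdom F₀).2 h0
    obtain ⟨h1, h2⟩ := Pool.Agent.U124.VI.main_c hI hJ hRc ⟨hΩ, hb, hϑ, hz⟩
      (Pool.Agent.U124.VI.gd_cab.1 h0') hpos' hfin'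
    refine ⟨h1.congr_fun_ae hev.symm, ?_⟩
    rw [integral_congr_ae hev, hW' F₀ h0']
    exact h2
  refine ⟨key, fun hiso hsc => ?_⟩
  obtain ⟨D0, hD0⟩ := hJ.ne
  have hD0p : 0 < D0 := hJ.pos D0 hD0
  have hDg : ∀ K D : ℝ, K ∈ Pool.Agent.U124.VI.Ik κ → D ∈ Pool.Agent.U124.VI.Jk α β →
      Dom κ α β (Pool.Agent.U124.VI.Dg K D) := by
    intro K D hK hD
    have hDp := hJ.pos D hD
    refine ⟨?_, ?_, ?_⟩
    · unfold distortion
      rw [Pool.Agent.U124.VI.Dg_dist hK.1 hDp]; exact hK.2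
    · rw [Pool.Agent.U124.VI.Dg_det hK.1 hDp]; exact hD.1
    · rw [Pool.Agent.U124.VI.Dg_det hK.1 hDp]; exact hD.2
  refine key (fun K => W (Pool.Agent.U124.VI.Dg K D0))
    (fun D => W (Pool.Agent.U124.VI.Dg 1 D) - W (Pool.Agent.U124.VI.Dg 1 D0)) fun A hA => ?_
  have hA' := (hdom A).2 hA
  obtain ⟨R, hR', Q, hQ', hRQ⟩ := Pool.Agent.U124.VI.normal hA'.1
  have hAK : distortion A ∈ Pool.Agent.U124.VI.Ik κ := hA'.2.1
  have hAJ : A.det ∈ Pool.Agent.U124.VI.Jk α β := hA'.2.2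
  have e1 : W A = W (Pool.Agent.U124.VI.Dg (distortion A) A.det) := by
    rw [← hiso R hR' Q hQ' A hA, hRQ]
    rfl
  have hc : 0 < Real.sqrt (A.det / D0) := Real.sqrt_pos.2 (div_pos hA'.1 hD0p)
  have h1 := hsc (Real.sqrt (A.det / D0)) hc (Pool.Agent.U124.VI.Dg (distortion A) D0)
    (Pool.Agent.U124.VI.Dg 1 D0)
    (by rw [Pool.Agent.U124.VI.Dg_det hAK.1 hD0p, Pool.Agent.U124.VI.Dg_det le_rfl hD0p])
    (hDg _ _ hAK hD0) (hDg _ _ hI.one hD0)
    (by rw [Pool.Agent.U124.VI.Dg_smul hD0p hA'.1]; exact hDg _ _ hAK hAJ)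
    (by rw [Pool.Agent.U124.VI.Dg_smul hD0p hA'.1]; exact hDg _ _ hI.one hAJ)
  rw [Pool.Agent.U124.VI.Dg_smul hD0p hA'.1, Pool.Agent.U124.VI.Dg_smul hD0p hA'.1] at h1
  rw [e1]
  linarith

end Pool.Agent.Results.MP_515557_an.VolumetricIsochoricSplit
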